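import Mathlib
import Pool.Agent.V1178.PS.Fin
set_option autoImplicit false

/-!
# A Pauli set of functions with bounded support which is not discrete

There is a Pauli set of functions which vanish outside `[0, 1]` and have modulus one on `[0, 1]`,
and which is homeomorphic to the Cantor set in the norm topology of `L²(ℝ)`. It is uncountable,
and none of its points is isolated. So a Pauli set of functions with bounded support need neither
be discrete nor be countable.
-/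

namespace Pool.Agent.Results.MP_d886ff_an.PerfectPauliSet

open MeasureTheory Set FourierTransform
open scoped ENNReal Topology

/-- The Hilbert space `L²(ℝ)` of complex valued functions. -/
abbrev L2 : Type := Lp ℂ 2 (volume : Measure ℝ)

/-- Pauli pairs. Here `𝓕` is the Fourier transform `𝓕 f (ξ) = ∫ e^{-2πixξ} f(x) dx`, extended to
`L²(ℝ)` by Plancherel. It differs from the transform with the kernel `e^{-ixy}` by the dilation
`y = 2πξ`, which does not affect the last condition. -/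
def PauliPair (f g : L2) : Prop :=
  LinearIndependent ℂ ![f, g] ∧ (∀ᵐ x : ℝ, ‖f x‖ = ‖g x‖) ∧
    ∀ᵐ ξ : ℝ, ‖(𝓕 f : L2) ξ‖ = ‖(𝓕 g : L2) ξ‖

/-- Pauli sets: at least two elements, and any two distinct elements form a Pauli pair. -/
def PauliSet (P : Set L2) : Prop :=
  P.Nontrivial ∧ ∀ f ∈ P, ∀ g ∈ P, f ≠ g → PauliPair f g

/-- The element `f` of `L²(ℝ)` vanishes almost everywhere outside a bounded interval. -/
def BoundedSupport (f : L2) : Prop := ∃ R : ℝ, ∀ᵐ x : ℝ, R < |x| → f x = 0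

/-- Every point of `P` is isolated in `P`. -/
def Discrete (P : Set L2) : Prop := ∀ f ∈ P, ∃ ε > 0, ∀ g ∈ P, g ≠ f → ε ≤ ‖f - g‖

/-- **Theorem.** There is a Pauli set `P`, all of whose elements have bounded support, which is not
discrete. Moreover every `f ∈ P` vanishes outside `[0, 1]`, has modulus one on `[0, 1]`, and is an
accumulation point of `P`, and `P` is homeomorphic to the Cantor space and uncountable. -/
theorem result : ∃ P : Set L2, PauliSet P ∧ (∀ f ∈ P, BoundedSupport f) ∧ ¬ Discrete P ∧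
    (∀ f ∈ P, ∀ᵐ x : ℝ, (x ∈ Icc (0 : ℝ) 1 → ‖f x‖ = 1) ∧ (x ∉ Icc (0 : ℝ) 1 → f x = 0)) ∧
    (∀ f ∈ P, ∀ ε > 0, ∃ g ∈ P, g ≠ f ∧ ‖f - g‖ < ε) ∧
    Nonempty (P ≃ₜ (ℕ → Bool)) ∧ ¬ P.Countable := by
  have hcl : Topology.IsClosedEmbedding V1178.PS.Ph :=
    V1178.PS.Ph_cont.isClosedEmbedding V1178.PS.Ph_inj
  have hacc : ∀ f ∈ range V1178.PS.Ph, ∀ ε > 0, ∃ g ∈ range V1178.PS.Ph, g ≠ f ∧ ‖f - g‖ < ε := by
    rintro _ ⟨s, rfl⟩ ε hε
    obtain ⟨n, hn⟩ := exists_pow_lt_of_lt_one (show 0 < ε / 2 by linarith)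
      (show (1 / 2 : ℝ) < 1 by norm_num)
    refine ⟨V1178.PS.Ph (Function.update s n (!s n)), ⟨_, rfl⟩, ?_, ?_⟩
    · intro h
      have h1 := congrFun (V1178.PS.Ph_inj h) n
      rw [Function.update_self] at h1
      cases h2 : s n <;> rw [h2] at h1 <;> cases h1
    · refine (V1178.PS.Ph_close s _ n fun k hk => ?_).trans_lt (by linarith)
      rw [Function.update_of_ne hk.ne]
  have hmod : ∀ f ∈ range V1178.PS.Ph, ∀ᵐ x : ℝ,
      (x ∈ Icc (0 : ℝ) 1 → ‖f x‖ = 1) ∧ (x ∉ Icc (0 : ℝ) 1 → f x = 0) := by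
    rintro _ ⟨s, rfl⟩
    have h1 : ∀ᵐ x : ℝ, x ≠ 1 := by
      rw [ae_iff]; simp
    filter_upwards [V1178.PS.Ph_ae s, h1] with x hx hx1
    rw [hx]
    constructor
    · intro h
      rw [V1178.PS.norm_ff, if_pos ⟨h.1, lt_of_le_of_ne h.2 hx1⟩]
    · intro h
      exact V1178.PS.ff_zero s fun h2 => h ⟨h2.1, h2.2.le⟩
  refine ⟨range V1178.PS.Ph, ⟨?_, ?_⟩, ?_, ?_, hmod, hacc, ⟨hcl.isEmbedding.toHomeomorph.symm⟩, ?_⟩
  · refine ⟨V1178.PS.Ph (fun _ => false), ⟨_, rfl⟩, V1178.PS.Ph (fun _ => true), ⟨_, rfl⟩, ?_⟩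
    intro h
    have := congrFun (V1178.PS.Ph_inj h) 0
    cases this
  · rintro _ ⟨s, rfl⟩ _ ⟨t, rfl⟩ hne
    refine ⟨V1178.PS.Ph_indep s t fun h => hne (by rw [h]), ?_, ?_⟩
    · filter_upwards [V1178.PS.Ph_ae s, V1178.PS.Ph_ae t] with x h1 h2
      rw [h1, h2, V1178.PS.norm_ff, V1178.PS.norm_ff]
    · filter_upwards [V1178.PS.Ph_four s, V1178.PS.Ph_four t] with ξ h1 h2
      rw [h1, h2]
  · intro f hf
    refine ⟨1, ?_⟩
    filter_upwards [hmod f hf] with x hx h
    exact hx.2 fun h2 => absurd (abs_le.mpr ⟨by linarith [h2.1], h2.2⟩) (not_le.mpr h)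
  · intro h
    obtain ⟨ε, hε, h1⟩ := h (V1178.PS.Ph fun _ => false) ⟨_, rfl⟩
    obtain ⟨g, hg, h2, h3⟩ := hacc (V1178.PS.Ph fun _ => false) ⟨_, rfl⟩ ε hε
    exact absurd (h1 g hg h2) (not_le.mpr h3)
  · intro h
    have h1 : Countable (ℕ → Bool) := by
      have := h.to_subtype
      exact hcl.isEmbedding.toHomeomorph.injective.countable
    obtain ⟨e, he⟩ := h1.exists_injective_nat
    classical
    refine Function.cantor_injective (fun S : Set ℕ => e fun n => decide (n ∈ S)) ?_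
    intro S T hST
    ext n
    have h2 := congrFun (he hST) n
    simpa using h2

end Pool.Agent.Results.MP_d886ff_an.PerfectPauliSet
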